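import Pool.Agent.H794R2.CorF

/-!
Bounded guessing by `ℵ₁` many functions (a consequence of the existence of a nonmeager set of
reals of size `ℵ₁`) gives an uncountable set `Q` of points of the product of the finite sets with
`2 ^ (k + 1)` elements such that each point `x` of the product agrees at some coordinate with all
but countably many members of `Q`.

Idea. A function guesses an initial segment of `x` at each stage `n`, and some member `z b`,
`b < ω₁`, of the family guesses right infinitely often. The point `q a`, `a < ω₁`, follows at the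
coordinate `Nat.pair n j` the stage `n` guess of the `j`-th member of a list of the `z b`, `b ≤ a`.
So `q a` agrees with `x` somewhere for all `a ≥ b`.
-/

set_option autoImplicit false

open Set Topology Cardinal H794R2.Cor

namespace Pool.Agent.Y40.NM

/-- Bounded functions are guessed infinitely often by the members of a family of `ℵ₁` functions:
for every bound `b` there is a family `G` of at most `ℵ₁` functions such that each function below
`b` is infinitely often equal to a member of `G`. -/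
def BoundedGuessing : Prop :=
  ∀ b : ℕ → ℕ, ∃ G : Set (ℕ → ℕ), #G ≤ ℵ₁ ∧
    ∀ x : ℕ → ℕ, (∀ n, x n < b n) → ∃ g ∈ G, {n | g n = x n}.Infinite

/-! ### Nonmeager sets -/

/-- the guess of the real `r` at stage `n` of a number below `B n` -/
noncomputable def gg (B : ℕ → ℕ) (r : ℝ) (n : ℕ) : ℕ :=
  (⌊((B n : ℝ) * (n + 1)) * r⌋ % (B n : ℤ)).toNat

theorem isNowhereDense_bad {B x : ℕ → ℕ} (hx : ∀ n, x n < B n) (n₀ : ℕ) :
    IsNowhereDense {r : ℝ | ∀ n, n₀ ≤ n → gg B r n ≠ x n} := by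
  rw [IsNowhereDense, eq_empty_iff_forall_notMem]
  intro y hy
  obtain ⟨ε, hε, hball⟩ := Metric.isOpen_iff.1 isOpen_interior y hy
  obtain ⟨n₁, hn₁⟩ := exists_nat_gt (2 / ε)
  obtain ⟨n, hn, hn'⟩ : ∃ n, n₀ ≤ n ∧ n₁ ≤ n := ⟨max n₀ n₁, le_max_left _ _, le_max_right _ _⟩
  have hn2 : 2 / ((n : ℝ) + 1) < ε := by
    have h1 : (n₁ : ℝ) ≤ n := by exact_mod_cast hn'
    have h2 : 2 / ε < (n : ℝ) + 1 := by linarith
    rw [div_lt_iff₀ hε] at h2
    rw [div_lt_iff₀ (by positivity)]
    linarith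
  set C : ℝ := (B n : ℝ) with hC
  have hC0 : 0 < C := by
    rw [hC]
    exact_mod_cast (Nat.zero_le _).trans_lt (hx n)
  have hN0 : (0 : ℝ) < (n : ℝ) + 1 := by positivity
  have htC : (x n : ℝ) + 1 ≤ C := by
    rw [hC]
    exact_mod_cast hx n
  set a : ℤ := ⌊((n : ℝ) + 1) * y⌋ with ha
  have ha1 : (a : ℝ) ≤ ((n : ℝ) + 1) * y := Int.floor_le _
  have ha2 : ((n : ℝ) + 1) * y < a + 1 := Int.lt_floor_add_one _
  let M : ℤ := (B n : ℤ) * (a + 1) + (x n : ℕ)
  have hM : (M : ℝ) = C * (a + 1) + (x n : ℝ) := by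
    simp only [M]
    push_cast
    rfl
  have hc0 : 0 < C * ((n : ℝ) + 1) := mul_pos hC0 hN0
  let lo : ℝ := M / (C * ((n : ℝ) + 1))
  let hi : ℝ := (M + 1) / (C * ((n : ℝ) + 1))
  have hlo : y < lo := by
    simp only [lo]
    rw [lt_div_iff₀ hc0, hM]
    have h1 : 0 ≤ (x n : ℝ) := by positivity
    nlinarith
  have hhi : hi < y + ε := by
    have h1 : hi ≤ y + 2 / ((n : ℝ) + 1) := by
      simp only [hi]
      rw [div_le_iff₀ hc0, hM]
      have h2 : (y + 2 / ((n : ℝ) + 1)) * (C * ((n : ℝ) + 1)) =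
          C * (((n : ℝ) + 1) * y) + 2 * C := by
        field_simp
      rw [h2]
      nlinarith
    linarith
  have hlohi : lo < hi := by
    simp only [lo, hi]
    exact div_lt_div_of_pos_right (by linarith) hc0
  have hsub : Ioo lo hi ⊆ closure {r : ℝ | ∀ n, n₀ ≤ n → gg B r n ≠ x n} := by
    intro r hr
    apply interior_subset
    apply hball
    rw [Metric.mem_ball, Real.dist_eq, abs_lt]
    constructor <;> linarith [hr.1, hr.2]
  have hmid : (lo + hi) / 2 ∈ Ioo lo hi := by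
    constructor <;> linarith
  obtain ⟨r, hr1, hr2⟩ := mem_closure_iff.1 (hsub hmid) (Ioo lo hi) isOpen_Ioo hmid
  apply hr2 n hn
  have hfl : ⌊((B n : ℝ) * (n + 1)) * r⌋ = M := by
    rw [Int.floor_eq_iff]
    have h1 : (M : ℝ) / (C * ((n : ℝ) + 1)) < r := hr1.1
    have h2 : r < ((M : ℝ) + 1) / (C * ((n : ℝ) + 1)) := hr1.2
    rw [div_lt_iff₀ hc0] at h1
    rw [lt_div_iff₀ hc0] at h2
    constructor <;> linarith
  have hmod : M % (B n : ℤ) = ((x n : ℕ) : ℤ) := by
    simp only [M]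
    rw [Int.mul_add_emod_self_left]
    exact Int.emod_eq_of_lt (by positivity) (by exact_mod_cast hx n)
  unfold gg
  rw [hfl, hmod]
  simp

theorem isMeagre_bad {B x : ℕ → ℕ} (hx : ∀ n, x n < B n) :
    IsMeagre {r : ℝ | ¬ {n | gg B r n = x n}.Infinite} := by
  have : {r : ℝ | ¬ {n | gg B r n = x n}.Infinite} ⊆
      ⋃ n₀ : ℕ, {r : ℝ | ∀ n, n₀ ≤ n → gg B r n ≠ x n} := by
    intro r hr
    rw [mem_setOf_eq, not_infinite] at hr
    obtain ⟨m, hm⟩ := hr.bddAbove
    refine mem_iUnion.2 ⟨m + 1, ?_⟩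
    intro n hn h
    have := hm (show n ∈ {n | gg B r n = x n} from h)
    omega
  exact (isMeagre_iUnion fun n₀ => (isNowhereDense_bad hx n₀).isMeagre).mono this

theorem boundedGuessing_of_nonmeagre {Z : Set ℝ} (hZ : #Z ≤ ℵ₁) (hm : ¬ IsMeagre Z) :
    BoundedGuessing := by
  intro b
  refine ⟨gg b '' Z, mk_image_le.trans hZ, fun x hx => ?_⟩
  have hnsub : ¬ Z ⊆ {r : ℝ | ¬ {n | gg b r n = x n}.Infinite} :=
    fun h => hm ((isMeagre_bad hx).mono h)
  obtain ⟨r, hrZ, hr⟩ := not_subset.1 hnsub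
  exact ⟨gg b r, mem_image_of_mem _ hrZ, not_not.1 hr⟩

/-! ### The set `Q` -/

/-- the length of the initial segment guessed at stage `n` -/
def mm (n : ℕ) : ℕ := Nat.pair n n + 1

noncomputable def CC (n : ℕ) : ℕ := Fintype.card (N (mm n))

noncomputable def ee (n : ℕ) : N (mm n) ≃ Fin (CC n) := Fintype.equivFin _

/-- the code of the initial segment of `x` which is guessed at stage `n` -/
noncomputable def res (x : X) (n : ℕ) : ℕ := ee n fun l => x l

/-- the value at the coordinate `l` which follows the stage `n` guess of the `j`-th function -/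
noncomputable def qval (r : ℕ → ℕ → ℕ) (n j l : ℕ) : Fin (2 ^ (l + 1)) :=
  if h : l < mm n ∧ r j n < CC n then (ee n).symm ⟨r j n, h.2⟩ ⟨l, h.1⟩ else ⟨0, by positivity⟩

theorem qval_eq {r : ℕ → ℕ → ℕ} {n j l : ℕ} {x : X} (h : l < mm n) (hr : r j n = res x n) :
    qval r n j l = x l := by
  have h2 : r j n < CC n := by
    rw [hr]
    exact (ee n _).2
  unfold qval
  rw [dif_pos ⟨h, h2⟩]
  have h3 : (⟨r j n, h2⟩ : Fin (CC n)) = ee n fun l => x l := Fin.ext hr
  rw [h3, Equiv.symm_apply_apply]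

/-- the point which follows the guesses of all members of the list `r` -/
noncomputable def qq (r : ℕ → ℕ → ℕ) : X :=
  fun l => qval r (Nat.unpair l).1 (Nat.unpair l).2 l

theorem qq_catches {r : ℕ → ℕ → ℕ} {j : ℕ} {x : X} (h : {n | r j n = res x n}.Infinite) :
    ∃ k, qq r k = x k := by
  obtain ⟨n, hx, hn⟩ := h.exists_gt j
  obtain ⟨l, hl⟩ : ∃ l, l = Nat.pair n j := ⟨_, rfl⟩
  have h1 : (Nat.unpair l).1 = n := by rw [hl, Nat.unpair_pair]
  have h2 : (Nat.unpair l).2 = j := by rw [hl, Nat.unpair_pair]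
  have h3 : l < mm n := by
    unfold mm
    have := Nat.pair_lt_pair_right n hn
    omega
  refine ⟨l, ?_⟩
  change qval r (Nat.unpair l).1 (Nat.unpair l).2 l = x l
  rw [h1, h2]
  exact qval_eq h3 hx

theorem exists_Q_of_guessing (hG : BoundedGuessing) :
    ∃ Q : Set X, ¬ Q.Countable ∧ ∀ x : X, {q ∈ Q | ∀ k, q k ≠ x k}.Countable := by
  classical
  obtain ⟨G, hGc, hG⟩ := hG CC
  let Λ : Type := (Cardinal.ord ℵ₁).ToType
  have hΛ : ∀ a : Λ, (Iio a).Countable := by
    intro a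
    exact (countable_iff_lt_aleph_one _).2 (mk_Iio_toType_ord_lt a)
  have hΛc : #Λ = ℵ₁ := by simp [Λ]
  have hIic : ∀ a : Λ, (Iic a).Countable := by
    intro a
    rw [← Iio_insert]
    exact (hΛ a).insert a
  have hunc : ¬ (Set.univ : Set Λ).Countable := by
    intro hE
    have h2 : #(Set.univ : Set Λ) ≤ ℵ₀ := le_aleph0_iff_set_countable.2 hE
    rw [mk_univ, hΛc] at h2
    exact absurd h2 (not_le.2 aleph0_lt_aleph_one)
  have hres : ∀ x : X, ∀ n, res x n < CC n := fun x n => (ee n _).2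
  have hne : Nonempty G := by
    let x₀ : X := fun k => ⟨0, by positivity⟩
    obtain ⟨g, hg, -⟩ := hG (res x₀) (hres x₀)
    exact ⟨⟨g, hg⟩⟩
  obtain ⟨i⟩ : Nonempty (G ↪ Λ) := (Cardinal.le_def _ _).1 (by rw [hΛc]; exact hGc)
  let z : Λ → ℕ → ℕ := fun a => (Function.invFun i a : G)
  have hz : ∀ g ∈ G, ∃ b, z b = g := by
    intro g hg
    refine ⟨i ⟨g, hg⟩, ?_⟩
    simp only [z]
    rw [Function.leftInverse_invFun i.injective]
  have henum : ∀ a : Λ, ∃ e : ℕ → Λ, Iic a = range e := fun a =>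
    (hIic a).exists_eq_range ⟨a, self_mem_Iic⟩
  choose e he using henum
  let q : Λ → X := fun a => qq fun j => z (e a j)
  have hq : ∀ x : X, {a | ∀ k, q a k ≠ x k}.Countable := by
    intro x
    obtain ⟨g, hgG, hg⟩ := hG (res x) (hres x)
    obtain ⟨b, rfl⟩ := hz g hgG
    refine (hΛ b).mono ?_
    intro a ha
    by_contra hab
    rw [mem_Iio, not_lt] at hab
    have hb : b ∈ Iic a := hab
    rw [he a] at hb
    obtain ⟨j, hj⟩ := hb
    obtain ⟨k, hk⟩ := qq_catches (r := fun j => z (e a j)) (j := j) (x := x) (by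
      simp only [hj]
      exact hg)
    exact ha k hk
  refine ⟨range q, ?_, ?_⟩
  · intro hc
    apply hunc
    have hfib : ∀ w : X, {a | q a = w}.Countable := by
      intro w
      choose d hd using fun k => exists_ne_digit k (w k)
      apply (hq d).mono
      intro a ha k
      have : q a = w := ha
      rw [this]
      exact (hd k).symm
    refine (hc.biUnion fun w _ => hfib w).mono ?_
    intro a _
    exact mem_biUnion (mem_range_self a) rfl
  · intro x
    refine ((hq x).image q).mono ?_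
    rintro _ ⟨⟨a, rfl⟩, ha⟩
    exact ⟨a, ha, rfl⟩

/-! ### Nonmeager sets of size `ℵ₁` -/

theorem not_isMeagre_univ : ¬ IsMeagre (Set.univ : Set ℝ) := by
  intro h
  obtain ⟨x, hx⟩ := (dense_of_mem_residual h).nonempty
  exact hx trivial

theorem nonmeagre_of_CH (hCH : (ℵ₁ : Cardinal.{0}) = 𝔠) :
    ∃ Z : Set ℝ, #Z = ℵ₁ ∧ ¬ IsMeagre Z :=
  ⟨Set.univ, by rw [mk_univ, mk_real, hCH], not_isMeagre_univ⟩

theorem nonmeagre_of_luzin {L : Set ℝ} (hL : ¬ L.Countable)
    (hM : ∀ M : Set ℝ, IsMeagre M → (L ∩ M).Countable) :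
    ∃ Z : Set ℝ, #Z = ℵ₁ ∧ ¬ IsMeagre Z := by
  have h1 : (ℵ₁ : Cardinal.{0}) ≤ #L := by
    rw [← succ_aleph0]
    refine Order.succ_le_of_lt ?_
    by_contra h
    exact hL (le_aleph0_iff_set_countable.1 (not_lt.1 h))
  obtain ⟨Z, hZL, hZ⟩ := le_mk_iff_exists_subset.1 h1
  refine ⟨Z, hZ, fun hm => ?_⟩
  have h2 : Z.Countable := (hM Z hm).mono (subset_inter hZL subset_rfl)
  have h3 : #Z ≤ ℵ₀ := le_aleph0_iff_set_countable.2 h2
  rw [hZ] at h3
  exact absurd h3 (not_le.2 aleph0_lt_aleph_one)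

end Pool.Agent.Y40.NM
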